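import Pool.Agent.helper80.HM.SpecB

/-! # Row MF of the hm project: a gate without alternation is a monotone gate -/

set_option autoImplicit false

namespace Pool.Agent.HM

open Finset Pool.Agent.helper33.Mod

theorem MF : MF_stmt := by
  intro M d φ g m hg hm hφ hA
  have h0 : ∀ x : Inp M, (fun _ => false : Inp M) ≤ x := fun x i => Bool.false_le _
  have h1 : ∀ x : Inp M, x ≤ (fun _ => true : Inp M) := fun x i => Bool.le_true _
  by_cases hc0 : m (fun _ => false) = true
  · exact ⟨fun _ => true, monotone_const, fun x => mono_true hm (h0 x) hc0⟩
  by_cases hc1 : m (fun _ => true) = false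
  · exact ⟨fun _ => false, monotone_const, fun x => mono_false hm (h1 x) hc1⟩
  have hc0' : m (fun _ => false) = false := by
    cases h : m (fun _ => false)
    · rfl
    · exact absurd h hc0
  have hc1' : m (fun _ => true) = true := by
    cases h : m (fun _ => true)
    · exact absurd h hc1
    · rfl
  refine ⟨fun w => φ fun j => g j (fun _ => false) || (w j && g j (fun _ => true)), ?_, ?_⟩
  · intro w w' hw
    by_contra hcon
    have hu : φ (fun j => g j (fun _ => false) || (w j && g j (fun _ => true))) = true ∧
        φ (fun j => g j (fun _ => false) || (w' j && g j (fun _ => true))) = false := by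
      revert hcon
      show ¬ (φ (fun j => g j (fun _ => false) || (w j && g j (fun _ => true))) ≤
        φ (fun j => g j (fun _ => false) || (w' j && g j (fun _ => true)))) → _
      cases φ (fun j => g j (fun _ => false) || (w j && g j (fun _ => true))) <;>
        cases φ (fun j => g j (fun _ => false) || (w' j && g j (fun _ => true))) <;> simp
    apply hA
    refine ⟨fun j => g j (fun _ => false), fun j => g j (fun _ => false) || (w j && g j (fun _ => true)),
      fun j => g j (fun _ => false) || (w' j && g j (fun _ => true)), fun j => g j (fun _ => true),
      fun j => ?_, fun j => ?_, fun j => ?_, ?_, hu.1, hu.2, ?_⟩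
    · show g j (fun _ => false) ≤ (g j (fun _ => false) || (w j && g j (fun _ => true)))
      exact Bool.left_le_or _ _
    · show (g j (fun _ => false) || (w j && g j (fun _ => true))) ≤
        (g j (fun _ => false) || (w' j && g j (fun _ => true)))
      have h2 : w j ≤ w' j := hw j
      revert h2
      cases w j <;> cases w' j <;> cases g j (fun _ => false) <;> cases g j (fun _ => true) <;> simp
    · show (g j (fun _ => false) || (w' j && g j (fun _ => true))) ≤ g j (fun _ => true)
      have h2 : g j (fun _ => false) ≤ g j (fun _ => true) := hg j (h0 _)
      revert h2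
      cases w' j <;> cases g j (fun _ => false) <;> cases g j (fun _ => true) <;> simp
    · rw [← hφ]
      exact hc0'
    · rw [← hφ]
      exact hc1'
  · intro x
    rw [hφ]
    congr 1
    funext j
    have h2 : g j (fun _ => false) ≤ g j x := hg j (h0 _)
    have h3 : g j x ≤ g j (fun _ => true) := hg j (h1 _)
    show g j x = (g j (fun _ => false) || (g j x && g j (fun _ => true)))
    revert h2 h3
    cases g j x <;> cases g j (fun _ => false) <;> cases g j (fun _ => true) <;> simp

end Pool.Agent.HM
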